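import Mathlib
import Pool.Agent.Q168.Poly

/-! The boundary length measure of every parallelogram (in particular of every square) admits an
exponential Riesz basis. -/

open MeasureTheory Set Filter Complex AddCircle
open scoped Real ENNReal NNReal

noncomputable section

namespace Pool.Agent.Results.MP_9e9244_an.ParallelogramRieszBasis

open Pool.Agent.Q168.Riesz Pool.Agent.Q168.Poly

/-- reflection `x ↦ -x` -/
def R : H →ₗᵢ[ℂ] H := comp (-1) (by norm_num)

/-- multiplication by `e^{πix}`, `0 < x ≤ 1` -/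
def U : H →ₗ[ℂ] H := mul (uu 0 (1 / 2))

/-- multiplication by `e^{-πix}`, `0 < x ≤ 1` -/
def V : H →ₗ[ℂ] H := mul (uu 0 (-(1 / 2)))

lemma UV (f : H) : U (V f) = f := mul_mul _ _ (fun x => by rw [uu_mul, add_neg_cancel, uu_zero]) f
lemma VU (f : H) : V (U f) = f := mul_mul _ _ (fun x => by rw [uu_mul, neg_add_cancel, uu_zero]) f
lemma norm_U (f : H) : ‖U f‖ = ‖f‖ := norm_mul_unimodular _ (uu_norm _ _) f
lemma norm_V (f : H) : ‖V f‖ = ‖f‖ := norm_mul_unimodular _ (uu_norm _ _) f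
lemma norm_R (f : H) : ‖R f‖ = ‖f‖ := R.norm_map f

lemma RR (f : H) : R (R f) = f := by
  apply Lp.ext
  have h1 := coe_comp (-1) (by norm_num) f
  filter_upwards [coe_comp (-1) (by norm_num) (R f), ae_zsmul (-1) (by norm_num) h1] with x h2 h3
  have : R (R f) = comp (-1) (by norm_num) (R f) := rfl
  rw [this, h2]
  have h4 : (R f : Cir → ℂ) ((-1 : ℤ) • x) = f ((-1 : ℤ) • ((-1 : ℤ) • x)) := h3
  rw [h4, smul_smul]
  norm_num

/-- almost every point of the circle is not `0` -/
lemma ae_ne_zero : ∀ᵐ x ∂hm, x ≠ 0 := by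
  rw [ae_iff]
  have h1 : {x : Cir | ¬ x ≠ 0} ⊆ rep 0 ⁻¹' {1} := by
    intro x hx
    simp only [ne_eq, not_not, mem_ofPred_eq] at hx
    rw [hx]
    have : ((1 : ℝ) : Cir) = 0 := AddCircle.coe_period 1
    rw [mem_preimage, ← this, rep_coe 0 (by simp)]
    rfl
  refine measure_mono_null h1 ?_
  rw [← Measure.map_apply (measurable_rep 0) (measurableSet_singleton 1), map_rep]
  exact le_antisymm ((Measure.restrict_apply_le _ _).trans (by simp)) (by simp)

lemma rep_neg {x : Cir} (hx : x ≠ 0) : rep 0 ((-1 : ℤ) • x) = 1 - rep 0 x := by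
  have hm := rep_mem 0 x
  have h1 : rep 0 x ≠ 1 := by
    intro h
    apply hx
    rw [← coe_rep 0 x, h]
    exact AddCircle.coe_period 1
  have h2 : ((1 - rep 0 x : ℝ) : Cir) = (-1 : ℤ) • x := by
    rw [AddCircle.coe_sub, coe_rep]
    have : ((1 : ℝ) : Cir) = 0 := AddCircle.coe_period 1
    rw [this]
    simp
  rw [← h2, rep_coe]
  constructor
  · have := lt_of_le_of_ne hm.2 (by simpa using h1)
    linarith
  · linarith [hm.1]

/-- `U` and reflection: `(Uf)(-x) = -e^{-πix} f(-x)` -/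
lemma RU (f : H) : R (U f) = -V (R f) := by
  apply Lp.ext
  have h1 := coe_mul (uu 0 (1 / 2)) f
  filter_upwards [coe_comp (-1) (by norm_num) (U f), ae_zsmul (-1) (by norm_num) h1,
    coe_mul (uu 0 (-(1 / 2))) (R f), coe_comp (-1) (by norm_num) f, Lp.coeFn_neg (V (R f)),
    ae_ne_zero] with x h2 h3 h4 h5 h6 h7
  rw [h6, Pi.neg_apply]
  have e1 : (R (U f) : Cir → ℂ) x = (U f : Cir → ℂ) ((-1 : ℤ) • x) := h2
  have e2 : (U f : Cir → ℂ) ((-1 : ℤ) • x) =
      (uu 0 (1 / 2)).f ((-1 : ℤ) • x) * f ((-1 : ℤ) • x) := h3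
  have e3 : (V (R f) : Cir → ℂ) x = (uu 0 (-(1 / 2))).f x * (R f : Cir → ℂ) x := h4
  have e4 : (R f : Cir → ℂ) x = f ((-1 : ℤ) • x) := h5
  rw [e1, e2, e3, e4]
  have e5 : (uu 0 (1 / 2)).f ((-1 : ℤ) • x) = -(uu 0 (-(1 / 2))).f x := by
    unfold uu
    simp only
    rw [rep_neg h7]
    have : (((2 * π * (1 / 2 * (1 - rep 0 x)) : ℝ) : ℂ)) * I =
        π * I + ((2 * π * (-(1 / 2) * rep 0 x) : ℝ) : ℂ) * I := by
      push_cast
      ring
    rw [this, Complex.exp_add, Complex.exp_pi_mul_I]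
    ring
  rw [e5]
  ring

lemma RV (f : H) : R (V f) = -U (R f) := by
  have h := RU (V f)
  rw [UV] at h
  have h2 : U (R f) = -(R (V f)) := by
    rw [h, map_neg U, UV]
  rw [h2, neg_neg]

/-- the synthesis operator; the edges are: bottom, right, top, left -/
def T : (Fin 4 → H) →ₗ[ℂ] (Fin 4 → H) where
  toFun w := ![w 0 + w 1 + U (w 2) + U (w 3),
    U (U (R (w 0))) + U (w 1) - U (w 2) - R (w 3),
    R (w 0) - R (w 1) + V (R (w 2)) - V (R (w 3)),
    V (V (w 0)) - V (R (w 1)) - V (R (w 2)) + w 3]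
  map_add' w z := by
    funext i
    fin_cases i <;> simp [map_add] <;> abel
  map_smul' a w := by
    funext i
    fin_cases i <;> simp [map_smul, smul_add, smul_sub]

lemma T0 (w : Fin 4 → H) : T w 0 = w 0 + w 1 + U (w 2) + U (w 3) := rfl
lemma T1 (w : Fin 4 → H) : T w 1 = U (U (R (w 0))) + U (w 1) - U (w 2) - R (w 3) := rfl
lemma T2 (w : Fin 4 → H) : T w 2 = R (w 0) - R (w 1) + V (R (w 2)) - V (R (w 3)) := rfl
lemma T3 (w : Fin 4 → H) : T w 3 = V (V (w 0)) - V (R (w 1)) - V (R (w 2)) + w 3 := rfl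

lemma VR (f : H) : V (R f) = -R (U f) := by rw [RU, neg_neg]
lemma UR (f : H) : U (R f) = -R (V f) := by rw [RV, neg_neg]

/-- `P = (F₀ + R F₂)/2` etc. -/
lemma relP (w : Fin 4 → H) : T w 0 + R (T w 2) = (2 : ℂ) • (w 0 + U (w 3)) := by
  rw [T0, T2]
  simp only [map_add, map_sub, RR, RV]
  module

lemma relM (w : Fin 4 → H) : T w 0 - R (T w 2) = (2 : ℂ) • (w 1 + U (w 2)) := by
  rw [T0, T2]
  simp only [map_add, map_sub, RR, RV]
  module

lemma relQ (w : Fin 4 → H) : T w 1 + R (T w 3) = (2 : ℂ) • (U (U (R (w 0))) + U (w 1)) := by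
  rw [T1, T3]
  simp only [map_add, map_sub, RR, RV, map_neg, neg_neg]
  module

lemma relD (w : Fin 4 → H) : R (T w 3) - T w 1 = (2 : ℂ) • (U (w 2) + R (w 3)) := by
  rw [T1, T3]
  simp only [map_add, map_sub, RR, RV, map_neg, neg_neg]
  module

lemma two_norm (f g : H) (c : ℝ) (h : g = (2 : ℂ) • f) (hc : ‖g‖ ≤ 2 * c) : ‖f‖ ≤ c := by
  rw [h, norm_smul] at hc
  have h4 : ‖(2 : ℂ)‖ = 2 := by norm_num
  rw [h4] at hc
  linarith

lemma four_sq (a b c d : ℝ) : (a + b + c + d) ^ 2 ≤ 4 * (a ^ 2 + b ^ 2 + c ^ 2 + d ^ 2) := by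
  nlinarith [sq_nonneg (a - b), sq_nonneg (a - c), sq_nonneg (a - d), sq_nonneg (b - c),
    sq_nonneg (b - d), sq_nonneg (c - d)]

/-- the four coordinates are controlled by `Φ = Σ ‖T w i‖` -/
lemma lower_aux (w : Fin 4 → H) (Φ : ℝ)
    (hΦ : Φ = ‖T w 0‖ + ‖T w 1‖ + ‖T w 2‖ + ‖T w 3‖) :
    ‖w 0‖ ≤ Φ ∧ ‖w 1‖ ≤ 2 * Φ ∧ ‖w 2‖ ≤ Φ ∧ ‖w 3‖ ≤ 2 * Φ := by
  have n0 := norm_nonneg (T w 0)
  have n1 := norm_nonneg (T w 1)
  have n2 := norm_nonneg (T w 2)
  have n3 := norm_nonneg (T w 3)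
  set P := w 0 + U (w 3) with hP
  set M := w 1 + U (w 2) with hM
  set Q := U (U (R (w 0))) + U (w 1) with hQ
  set D := U (w 2) + R (w 3) with hD
  have bP : ‖P‖ ≤ Φ / 2 := by
    apply two_norm _ _ _ (relP w)
    refine (norm_add_le _ _).trans ?_
    rw [norm_R]
    linarith
  have bM : ‖M‖ ≤ Φ / 2 := by
    apply two_norm _ _ _ (relM w)
    refine (norm_sub_le _ _).trans ?_
    rw [norm_R]
    linarith
  have bQ : ‖Q‖ ≤ Φ / 2 := by
    apply two_norm _ _ _ (relQ w)
    refine (norm_add_le _ _).trans ?_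
    rw [norm_R]
    linarith
  have bD : ‖D‖ ≤ Φ / 2 := by
    apply two_norm _ _ _ (relD w)
    refine (norm_sub_le _ _).trans ?_
    rw [norm_R]
    linarith
  have eA : R (w 0) + w 2 = R P + V D := by
    rw [hP, hD]
    simp only [map_add, VU, RU]
    abel
  have eB : R (w 0) - w 2 = V (V Q) - V M := by
    rw [hQ, hM]
    simp only [map_add, VU]
    abel
  have b0 : ‖w 0‖ ≤ Φ := by
    rw [← norm_R (w 0)]
    apply two_norm (R (w 0)) ((R P + V D) + (V (V Q) - V M)) Φ
    · rw [← eA, ← eB]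
      module
    · calc ‖(R P + V D) + (V (V Q) - V M)‖ ≤ ‖R P + V D‖ + ‖V (V Q) - V M‖ := norm_add_le _ _
        _ ≤ (‖R P‖ + ‖V D‖) + (‖V (V Q)‖ + ‖V M‖) := by
            gcongr
            · exact norm_add_le _ _
            · exact norm_sub_le _ _
        _ ≤ 2 * Φ := by
            rw [norm_R, norm_V, norm_V, norm_V, norm_V]
            linarith
  have b2 : ‖w 2‖ ≤ Φ := by
    apply two_norm (w 2) ((R P + V D) - (V (V Q) - V M)) Φ
    · rw [← eA, ← eB]
      module
    · calc ‖(R P + V D) - (V (V Q) - V M)‖ ≤ ‖R P + V D‖ + ‖V (V Q) - V M‖ := norm_sub_le _ _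
        _ ≤ (‖R P‖ + ‖V D‖) + (‖V (V Q)‖ + ‖V M‖) := by
            gcongr
            · exact norm_add_le _ _
            · exact norm_sub_le _ _
        _ ≤ 2 * Φ := by
            rw [norm_R, norm_V, norm_V, norm_V, norm_V]
            linarith
  have b1 : ‖w 1‖ ≤ 2 * Φ := by
    have : w 1 = M - U (w 2) := by rw [hM]; abel
    rw [this]
    refine (norm_sub_le _ _).trans ?_
    rw [norm_U]
    linarith
  have b3 : ‖w 3‖ ≤ 2 * Φ := by
    rw [← norm_R (w 3)]
    have : R (w 3) = D - U (w 2) := by rw [hD]; abel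
    rw [this]
    refine (norm_sub_le _ _).trans ?_
    rw [norm_U]
    linarith
  exact ⟨b0, b1, b2, b3⟩

lemma arith (a b c d t0 t1 t2 t3 : ℝ) (ha : 0 ≤ a) (hb : 0 ≤ b) (hc : 0 ≤ c) (hd : 0 ≤ d)
    (b0 : a ≤ t0 + t1 + t2 + t3) (b1 : b ≤ 2 * (t0 + t1 + t2 + t3))
    (b2 : c ≤ t0 + t1 + t2 + t3) (b3 : d ≤ 2 * (t0 + t1 + t2 + t3)) :
    (1 / 40) * (a ^ 2 + b ^ 2 + c ^ 2 + d ^ 2) ≤ t0 ^ 2 + t1 ^ 2 + t2 ^ 2 + t3 ^ 2 := by
  have c0 := pow_le_pow_left₀ ha b0 2
  have c1 := pow_le_pow_left₀ hb b1 2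
  have c2 := pow_le_pow_left₀ hc b2 2
  have c3 := pow_le_pow_left₀ hd b3 2
  have c4 := four_sq t0 t1 t2 t3
  have c5 : (2 * (t0 + t1 + t2 + t3)) ^ 2 = 4 * (t0 + t1 + t2 + t3) ^ 2 := by ring
  rw [c5] at c1 c3
  linarith

lemma lower (w : Fin 4 → H) : (1 / 40) * ∑ j, ‖w j‖ ^ 2 ≤ ∑ i, ‖T w i‖ ^ 2 := by
  obtain ⟨b0, b1, b2, b3⟩ := lower_aux w _ rfl
  rw [Fin.sum_univ_four, Fin.sum_univ_four]
  exact arith _ _ _ _ _ _ _ _ (norm_nonneg _) (norm_nonneg _) (norm_nonneg _) (norm_nonneg _)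
    b0 b1 b2 b3

lemma norm_four (a b c d : H) : ‖a + b + c + d‖ ≤ ‖a‖ + ‖b‖ + ‖c‖ + ‖d‖ :=
  (norm_add_le _ _).trans (by gcongr; exact norm_add₃_le)

lemma upper (w : Fin 4 → H) : ∑ i, ‖T w i‖ ^ 2 ≤ 16 * ∑ j, ‖w j‖ ^ 2 := by
  set Φ := ‖w 0‖ + ‖w 1‖ + ‖w 2‖ + ‖w 3‖ with hΦ
  have h0 : ‖T w 0‖ ≤ Φ := by
    rw [T0]
    refine (norm_four _ _ _ _).trans ?_
    rw [norm_U, norm_U]
  have h1 : ‖T w 1‖ ≤ Φ := by
    rw [T1, sub_eq_add_neg, sub_eq_add_neg]
    refine (norm_four _ _ _ _).trans ?_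
    rw [norm_neg, norm_neg, norm_U, norm_U, norm_U, norm_U, norm_R, norm_R]
  have h2 : ‖T w 2‖ ≤ Φ := by
    rw [T2, sub_eq_add_neg, sub_eq_add_neg]
    refine (norm_four _ _ _ _).trans ?_
    rw [norm_neg, norm_neg, norm_V, norm_V, norm_R, norm_R, norm_R, norm_R]
  have h3 : ‖T w 3‖ ≤ Φ := by
    rw [T3, sub_eq_add_neg, sub_eq_add_neg]
    refine (norm_four _ _ _ _).trans ?_
    rw [norm_neg, norm_neg, norm_V, norm_V, norm_V, norm_V, norm_R, norm_R]
  rw [Fin.sum_univ_four, Fin.sum_univ_four]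
  have c0 := pow_le_pow_left₀ (norm_nonneg _) h0 2
  have c1 := pow_le_pow_left₀ (norm_nonneg _) h1 2
  have c2 := pow_le_pow_left₀ (norm_nonneg _) h2 2
  have c3 := pow_le_pow_left₀ (norm_nonneg _) h3 2
  have c4 : Φ ^ 2 ≤ 4 * (‖w 0‖ ^ 2 + ‖w 1‖ ^ 2 + ‖w 2‖ ^ 2 + ‖w 3‖ ^ 2) := four_sq _ _ _ _
  linarith

lemma surj : Function.Surjective T := by
  intro F
  set P : H := (1 / 2 : ℂ) • (F 0 + R (F 2)) with hP
  set M : H := (1 / 2 : ℂ) • (F 0 - R (F 2)) with hM
  set Q : H := (1 / 2 : ℂ) • (F 1 + R (F 3)) with hQ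
  set D : H := (1 / 2 : ℂ) • (R (F 3) - F 1) with hD
  set a : H := (1 / 2 : ℂ) • (R P + V D + V (V Q) - V M) with ha
  set w2 : H := (1 / 2 : ℂ) • (R P + V D - V (V Q) + V M) with hw2
  have hsum : a + w2 = R P + V D := by rw [ha, hw2]; module
  have hdif : a - w2 = V (V Q) - V M := by rw [ha, hw2]; module
  set w0 : H := R a with hw0
  set w1 : H := M - U w2 with hw1
  set w3 : H := R (D - U w2) with hw3
  have r0 : R w0 = a := RR a
  have r3 : R w3 = D - U w2 := RR _
  have hPM : P + M = F 0 := by rw [hP, hM]; module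
  have hPM' : P - M = R (F 2) := by rw [hP, hM]; module
  have hQD : Q - D = F 1 := by rw [hQ, hD]; module
  have hQD' : Q + D = R (F 3) := by rw [hQ, hD]; module
  have u1 : U (U (a - w2)) = Q - U M := by
    rw [hdif]
    simp only [map_sub, UV]
  refine ⟨![w0, w1, w2, w3], ?_⟩
  set w : Fin 4 → H := ![w0, w1, w2, w3] with hw
  have e0 : w 0 = w0 := rfl
  have e1 : w 1 = w1 := rfl
  have e2 : w 2 = w2 := rfl
  have e3 : w 3 = w3 := rfl
  have g0 : T w 0 = F 0 := by
    rw [T0, e0, e1, e2, e3]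
    have h1 : U w3 = -R (V D) + R w2 := by
      rw [hw3, UR, map_sub V, VU, map_sub R]
      abel
    have h2 : w0 + U w3 = P := by
      rw [h1, hw0]
      have : R a + (-R (V D) + R w2) = R (a + w2 - V D) := by
        rw [map_sub, map_add]; abel
      rw [this, hsum]
      have : R P + V D - V D = R P := by abel
      rw [this, RR]
    calc w0 + w1 + U w2 + U w3 = (w0 + U w3) + M := by rw [hw1]; abel
      _ = F 0 := by rw [h2, hPM]
  have g1 : T w 1 = F 1 := by
    rw [T1, e0, e1, e2, e3, r0, r3, hw1, map_sub U M]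
    have : U (U a) + (U M - U (U w2)) - U w2 - (D - U w2) = U (U (a - w2)) + U M - D := by
      rw [map_sub U a, map_sub U (U a)]; abel
    rw [this, u1, ← hQD]
    abel
  have g2 : T w 2 = F 2 := by
    rw [T2, e0, e1, e2, e3, r0, r3, hw1, map_sub R M, map_sub V D, RU, VU]
    have : a - (R M - -V (R w2)) + V (R w2) - (V D - w2) = (a + w2) - V D - R M := by abel
    rw [this, hsum]
    have : R P + V D - V D - R M = R (P - M) := by rw [map_sub]; abel
    rw [this, hPM', RR]
  have g3 : T w 3 = F 3 := by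
    rw [T3, e0, e1, e2, e3]
    have h1 : V (V w0) = R (U (U a)) := by
      rw [hw0, VR, map_neg V, VR, neg_neg]
    have h2 : V (R w1) = -R (U M) + R (U (U w2)) := by
      rw [hw1, VR, map_sub U M, map_sub R]
      abel
    have h3 : V (R w2) = -R (U w2) := VR w2
    rw [h1, h2, h3, hw3]
    have : R (U (U a)) - (-R (U M) + R (U (U w2))) - -R (U w2) + R (D - U w2) =
        R (U (U (a - w2)) + U M + D) := by
      simp only [map_sub, map_add]
      abel
    rw [this, u1]
    have : Q - U M + U M + D = Q + D := by abel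
    rw [this, hQD', RR]
  funext i
  fin_cases i
  · exact g0
  · exact g1
  · exact g2
  · exact g3

/-! ### The frequencies -/

lemma ex_int (a b : ℝ) (k : ℤ) (h : a = b + k) :
    cexp ((2 * π * a : ℝ) * I) = cexp ((2 * π * b : ℝ) * I) := by
  have : ((2 * π * a : ℝ) : ℂ) * I = ((2 * π * b : ℝ) : ℂ) * I + k * (2 * π * I) := by
    rw [h]
    push_cast
    ring
  rw [this, Complex.exp_add, Complex.exp_int_mul_two_pi_mul_I, mul_one]

lemma ex_half (a b : ℝ) (k : ℤ) (h : a = b + k + 1 / 2) :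
    cexp ((2 * π * a : ℝ) * I) = -cexp ((2 * π * b : ℝ) * I) := by
  have : ((2 * π * a : ℝ) : ℂ) * I = ((2 * π * b : ℝ) : ℂ) * I + k * (2 * π * I) + π * I := by
    rw [h]
    push_cast
    ring
  rw [this, Complex.exp_add, Complex.exp_add, Complex.exp_int_mul_two_pi_mul_I, mul_one,
    Complex.exp_pi_mul_I]
  ring

/-- the exponential `e^{2πi s x}`, `0 < x ≤ 1`, as a function on the circle -/
def ex (s : ℝ) (x : Cir) : ℂ := cexp ((2 * π * (s * rep 0 x) : ℝ) * I)

lemma coe_e (n : ℤ) : ((fourierLp 2 n : H) : Cir → ℂ) =ᵐ[hm] ex n := by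
  filter_upwards [coe_fourierLp n] with x hx
  rw [hx, fourier_eq 0]
  rfl

lemma coe_R (n : ℤ) : (R (fourierLp 2 n : H) : Cir → ℂ) =ᵐ[hm] ex (-n) := by
  unfold R
  filter_upwards [coe_comp_fourierLp (-1) (by norm_num) n] with x hx
  rw [hx, fourier_eq 0]
  unfold ex
  congr 1
  push_cast
  ring

lemma coe_mulU (f : H) (s : ℝ) (h : (f : Cir → ℂ) =ᵐ[hm] ex s) :
    (U f : Cir → ℂ) =ᵐ[hm] ex (s + 1 / 2) := by
  unfold U
  filter_upwards [coe_mul (uu 0 (1 / 2)) f, h] with x h1 h2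
  rw [h1, h2]
  unfold uu ex
  simp only
  rw [← Complex.exp_add]
  congr 1
  push_cast
  ring

lemma coe_mulV (f : H) (s : ℝ) (h : (f : Cir → ℂ) =ᵐ[hm] ex s) :
    (V f : Cir → ℂ) =ᵐ[hm] ex (s - 1 / 2) := by
  unfold V
  filter_upwards [coe_mul (uu 0 (-(1 / 2))) f, h] with x h1 h2
  rw [h1, h2]
  unfold uu ex
  simp only
  rw [← Complex.exp_add]
  congr 1
  push_cast
  ring

lemma coe_neg' (f : H) (g : Cir → ℂ) (h : (f : Cir → ℂ) =ᵐ[hm] g) :
    ((-f : H) : Cir → ℂ) =ᵐ[hm] fun x => -g x := by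
  filter_upwards [Lp.coeFn_neg f, h] with x h1 h2
  rw [h1, Pi.neg_apply, h2]

lemma single0 (f : H) : T (Pi.single 0 f) = ![f, U (U (R f)), R f, V (V f)] := by
  funext i
  fin_cases i <;> simp [T]

lemma single1 (f : H) : T (Pi.single 1 f) = ![f, U f, -R f, -V (R f)] := by
  funext i
  fin_cases i <;> simp [T]

lemma single2 (f : H) : T (Pi.single 2 f) = ![U f, -U f, V (R f), -V (R f)] := by
  funext i
  fin_cases i <;> simp [T]

lemma single3 (f : H) : T (Pi.single 3 f) = ![U f, -R f, -V (R f), f] := by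
  funext i
  fin_cases i <;> simp [T]

/-- the prescribed inner products with the edge vectors `u`, `v` -/
def xi (p : Fin 4 × ℤ) : ℝ × ℝ :=
  ![((p.2 : ℝ), 1 - (p.2 : ℝ)), ((p.2 : ℝ), (p.2 : ℝ) + 1 / 2),
    ((p.2 : ℝ) + 1 / 2, (p.2 : ℝ) + 1 / 2), ((p.2 : ℝ) + 1 / 2, -(p.2 : ℝ))] p.1

lemma xi_injective : Function.Injective xi := by
  have half : ∀ a b : ℤ, (a : ℝ) ≠ b + 1 / 2 := by
    intro a b h
    have h1 : (2 * a : ℝ) = 2 * b + 1 := by linarith
    have h2 : 2 * a = 2 * b + 1 := by exact_mod_cast h1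
    omega
  have half2 : ∀ a b : ℤ, (1 - a : ℝ) ≠ b + 1 / 2 := by
    intro a b h
    apply half (1 - a) b
    push_cast
    exact h
  have half3 : ∀ a b : ℤ, (-a : ℝ) ≠ b + 1 / 2 := by
    intro a b h
    apply half (-a) b
    push_cast
    exact h
  rintro ⟨i, n⟩ ⟨j, m⟩ h
  have h1 := congrArg Prod.fst h
  have h2 := congrArg Prod.snd h
  fin_cases i <;> fin_cases j <;> simp only [xi, Fin.zero_eta, Fin.mk_one, Fin.reduceFinMk,
    Matrix.cons_val_zero, Matrix.cons_val_one, Matrix.cons_val] at h1 h2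
  · have : n = m := by exact_mod_cast h1
    rw [this]
  · exact absurd h2 (half2 n m)
  · exact absurd h2 (half2 n m)
  · exact absurd h1 (half n m)
  · exact absurd h2.symm (half2 m n)
  · have : n = m := by exact_mod_cast h1
    rw [this]
  · exact absurd h1 (half n m)
  · exact absurd h1 (half n m)
  · exact absurd h2.symm (half2 m n)
  · exact absurd h1.symm (half m n)
  · have h3 : (n : ℝ) = m := by linarith
    have : n = m := by exact_mod_cast h3
    rw [this]
  · exact absurd h2.symm (half3 m n)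
  · exact absurd h1.symm (half m n)
  · exact absurd h1.symm (half m n)
  · exact absurd h2 (half3 n m)
  · have h3 : (n : ℝ) = m := by linarith
    have : n = m := by exact_mod_cast h3
    rw [this]

/-- **Theorem.** For every parallelogram with vertices `p, p+u, p+u+v, p+v` (`u, v` linearly
independent), in particular for every square, the boundary length measure admits an exponential
Riesz basis. -/
theorem result (p u v : E2) (huv : LinearIndependent ℝ ![u, v]) :
    ∃ Λ : Set E2, Λ.Countable ∧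
      IsRieszBasis expo (polyMeasure ![p, p + u, p + u + v, p + v]) Λ := by
  choose lam hlam1 hlam2 using fun q : Fin 4 × ℤ => exists_inner u v huv (xi q).1 (xi q).2
  refine ⟨range lam, countable_range _, ?_⟩
  have hu : u ≠ 0 := huv.ne_zero 0
  have hv : v ≠ 0 := huv.ne_zero 1
  set P : Fin 4 → E2 := ![p, p + u, p + u + v, p + v] with hP
  have d0 : P (0 + 1) - P 0 = u := by simp [hP]
  have d1 : P (1 + 1) - P 1 = v := by
    have : (1 : Fin 4) + 1 = 2 := rfl
    rw [this]
    simp [hP]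
  have d2 : P (2 + 1) - P 2 = -u := by
    have : (2 : Fin 4) + 1 = 3 := rfl
    rw [this]
    simp only [hP, Matrix.cons_val]
    abel
  have d3 : P (3 + 1) - P 3 = -v := by
    have : (3 : Fin 4) + 1 = 0 := rfl
    rw [this]
    simp [hP]
  have hne : ∀ i : Fin 4, P (i + 1) - P i ≠ 0 := by
    intro i
    fin_cases i
    · rw [← d0] at hu
      exact hu
    · rw [← d1] at hv
      exact hv
    · have := neg_ne_zero.2 hu
      rw [← d2] at this
      exact this
    · have := neg_ne_zero.2 hv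
      rw [← d3] at this
      exact this
  apply riesz_of_data expo (fun i : Fin 4 => edge (P i) (P (i + 1))) lam
    (fun q => cexp ((2 * π * inner ℝ (lam q) p : ℝ) * I)) T (polyMeasure P) measurable_expo
    (fun i => measurable_edge _ _) (fun i => ‖P (i + 1) - P i‖₊)
    (fun i => by simpa using hne i)
    (by
      unfold polyMeasure
      simp_rw [segMeasure_eq])
    (by
      intro q q' hqq
      apply xi_injective
      have h1 := hlam1 q
      have h2 := hlam2 q
      rw [hqq] at h1 h2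
      rw [hlam1 q'] at h1
      rw [hlam2 q'] at h2
      exact Prod.ext h1.symm h2.symm)
    (fun q => Complex.norm_exp_ofReal_mul_I _) (1 / 40) 16 (by norm_num) lower upper surj
  intro j n i
  have key : ∀ (a b : ℝ), (a, b) = xi (j, n) → ∀ i : Fin 4, ∀ x : Cir,
      expo (lam (j, n)) (edge (P i) (P (i + 1)) x) =
      cexp ((2 * π * inner ℝ (lam (j, n)) p : ℝ) * I) *
        ![cexp ((2 * π * (a * rep 0 x) : ℝ) * I), cexp ((2 * π * (a + b * rep 0 x) : ℝ) * I),
          cexp ((2 * π * (a + b - a * rep 0 x) : ℝ) * I),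
          cexp ((2 * π * (b - b * rep 0 x) : ℝ) * I)] i := by
    intro a b hab i x
    have ha : inner ℝ (lam (j, n)) u = a := by rw [hlam1, ← hab]
    have hb : inner ℝ (lam (j, n)) v = b := by rw [hlam2, ← hab]
    rw [expo_edge]
    fin_cases i
    · have e1 : P ((fun i => i) ⟨0, by decide⟩ + 1) - P ((fun i => i) ⟨0, by decide⟩) = u := d0
      have e2 : P ((fun i => i) ⟨0, by decide⟩) = p := rfl
      rw [e1, e2, ha]
      rfl
    · have e1 : P ((fun i => i) ⟨1, by decide⟩ + 1) - P ((fun i => i) ⟨1, by decide⟩) = v := d1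
      have e2 : P ((fun i => i) ⟨1, by decide⟩) = p + u := rfl
      rw [e1, e2, hb, inner_add_right, ha]
      simp only [Fin.mk_one, Matrix.cons_val_one, Matrix.cons_val_zero]
      rw [← Complex.exp_add, ← Complex.exp_add]
      congr 1
      push_cast
      ring
    · have e1 : P ((fun i => i) ⟨2, by decide⟩ + 1) - P ((fun i => i) ⟨2, by decide⟩) = -u := d2
      have e2 : P ((fun i => i) ⟨2, by decide⟩) = p + u + v := rfl
      rw [e1, e2, inner_neg_right, inner_add_right, inner_add_right, ha, hb]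
      simp only [Fin.reduceFinMk, Matrix.cons_val]
      rw [← Complex.exp_add, ← Complex.exp_add]
      congr 1
      push_cast
      ring
    · have e1 : P ((fun i => i) ⟨3, by decide⟩ + 1) - P ((fun i => i) ⟨3, by decide⟩) = -v := d3
      have e2 : P ((fun i => i) ⟨3, by decide⟩) = p + v := rfl
      rw [e1, e2, inner_neg_right, inner_add_right, hb]
      simp only [Fin.reduceFinMk, Matrix.cons_val]
      rw [← Complex.exp_add, ← Complex.exp_add]
      congr 1
      push_cast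
      ring
  -- reduce to the four components
  have fin : ∀ (a b : ℝ), (a, b) = xi (j, n) →
      (∀ i : Fin 4, ((T (Pi.single j (fourierLp 2 n)) i : H) : Cir → ℂ) =ᵐ[hm] fun x =>
        ![cexp ((2 * π * (a * rep 0 x) : ℝ) * I), cexp ((2 * π * (a + b * rep 0 x) : ℝ) * I),
          cexp ((2 * π * (a + b - a * rep 0 x) : ℝ) * I),
          cexp ((2 * π * (b - b * rep 0 x) : ℝ) * I)] i) →
      (fun x => expo (lam (j, n)) (edge (P i) (P (i + 1)) x)) =ᵐ[hm] fun x =>
        cexp ((2 * π * inner ℝ (lam (j, n)) p : ℝ) * I) *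
          (T (Pi.single j (fourierLp 2 n)) i : Cir → ℂ) x := by
    intro a b hab h
    filter_upwards [h i] with x hx
    rw [key a b hab i x, hx]
  have he := coe_e n
  have hR := coe_R n
  fin_cases j
  · apply fin n (1 - n) rfl
    simp only [Fin.zero_eta, single0]
    intro i
    fin_cases i
    · filter_upwards [he] with x h1
      exact h1
    · filter_upwards [coe_mulU _ _ (coe_mulU _ _ hR)] with x h1
      refine h1.trans ?_
      exact (ex_int _ _ n (by push_cast; ring)).symm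
    · filter_upwards [hR] with x h1
      refine h1.trans ?_
      exact (ex_int _ _ 1 (by push_cast; ring)).symm
    · filter_upwards [coe_mulV _ _ (coe_mulV _ _ he)] with x h1
      refine h1.trans ?_
      exact (ex_int _ _ (1 - n) (by push_cast; ring)).symm
  · apply fin n (n + 1 / 2) rfl
    simp only [Fin.mk_one, single1]
    intro i
    fin_cases i
    · filter_upwards [he] with x h1
      exact h1
    · filter_upwards [coe_mulU _ _ he] with x h1
      refine h1.trans ?_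
      exact (ex_int _ _ n (by push_cast; ring)).symm
    · filter_upwards [coe_neg' _ _ hR] with x h1
      refine h1.trans ?_
      exact (ex_half _ _ (2 * n) (by push_cast; ring)).symm
    · filter_upwards [coe_neg' _ _ (coe_mulV _ _ hR)] with x h1
      refine h1.trans ?_
      exact (ex_half _ _ n (by push_cast; ring)).symm
  · apply fin (n + 1 / 2) (n + 1 / 2) rfl
    simp only [Fin.reduceFinMk, single2]
    intro i
    fin_cases i
    · filter_upwards [coe_mulU _ _ he] with x h1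
      exact h1
    · filter_upwards [coe_neg' _ _ (coe_mulU _ _ he)] with x h1
      refine h1.trans ?_
      exact (ex_half _ _ n (by push_cast; ring)).symm
    · filter_upwards [coe_mulV _ _ hR] with x h1
      refine h1.trans ?_
      exact (ex_int _ _ (2 * n + 1) (by push_cast; ring)).symm
    · filter_upwards [coe_neg' _ _ (coe_mulV _ _ hR)] with x h1
      refine h1.trans ?_
      exact (ex_half _ _ n (by push_cast; ring)).symm
  · apply fin (n + 1 / 2) (-n) rfl
    simp only [Fin.reduceFinMk, single3]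
    intro i
    fin_cases i
    · filter_upwards [coe_mulU _ _ he] with x h1
      exact h1
    · filter_upwards [coe_neg' _ _ hR] with x h1
      refine h1.trans ?_
      exact (ex_half _ _ n (by push_cast; ring)).symm
    · filter_upwards [coe_neg' _ _ (coe_mulV _ _ hR)] with x h1
      refine h1.trans ?_
      exact (ex_half _ _ 0 (by push_cast; ring)).symm
    · filter_upwards [he] with x h1
      refine h1.trans ?_
      exact (ex_int _ _ (-n) (by push_cast; ring)).symm

end Pool.Agent.Results.MP_9e9244_an.ParallelogramRieszBasis
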