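import Mathlib
import Pool.Agent.Q168.Poly

/-! The boundary length measure of every triangle admits an exponential Riesz basis. -/

open MeasureTheory Set Filter Complex AddCircle
open scoped Real ENNReal NNReal

noncomputable section

namespace Pool.Agent.Results.MP_9e9244_an.TriangleRieszBasis

open Pool.Agent.Q168.Riesz Pool.Agent.Q168.Poly

/-- composition with `x ↦ -2x` -/
def C : H →ₗᵢ[ℂ] H := comp (-2) (by norm_num)

/-- multiplication by `e^{πix}`, `0 < x ≤ 1` -/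
def U : H →ₗ[ℂ] H := mul (uu 0 (1 / 2))

/-- multiplication by `e^{-πix}`, `0 < x ≤ 1` -/
def V : H →ₗ[ℂ] H := mul (uu 0 (-(1 / 2)))

/-- multiplication by `e^{-2πix}` -/
def E : H →ₗ[ℂ] H := mul (uu 0 (-1))

lemma UV (f : H) : U (V f) = f := mul_mul _ _ (fun x => by rw [uu_mul, add_neg_cancel, uu_zero]) f
lemma VU (f : H) : V (U f) = f := mul_mul _ _ (fun x => by rw [uu_mul, neg_add_cancel, uu_zero]) f
lemma norm_U (f : H) : ‖U f‖ = ‖f‖ := norm_mul_unimodular _ (uu_norm _ _) f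
lemma norm_V (f : H) : ‖V f‖ = ‖f‖ := norm_mul_unimodular _ (uu_norm _ _) f
lemma norm_E (f : H) : ‖E f‖ = ‖f‖ := norm_mul_unimodular _ (uu_norm _ _) f
lemma norm_C (f : H) : ‖C f‖ = ‖f‖ := C.norm_map f

/-- the isometry `S f(x) = e^{-2πix} (V f)(-2x)` -/
def S : H →ₗ[ℂ] H := E ∘ₗ C.toLinearMap ∘ₗ V

lemma S_apply (f : H) : S f = E (C (V f)) := rfl

lemma norm_S (f : H) : ‖S f‖ = ‖f‖ := by rw [S_apply, norm_E, norm_C, norm_V]

/-- the half period -/
def hp : Cir := ((1 / 2 : ℝ) : Cir)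

lemma hp2 : (-2 : ℤ) • hp = 0 := by
  unfold hp
  rw [← AddCircle.coe_zsmul]
  have : (-2 : ℤ) • (1 / 2 : ℝ) = (-1 : ℤ) • (1 : ℝ) := by norm_num
  rw [this, AddCircle.coe_zsmul, AddCircle.coe_period, smul_zero]

lemma trans_C (f : H) : trans hp (C f) = C f := by
  apply Lp.ext
  have h1 := coe_comp (-2) (by norm_num) f
  filter_upwards [coe_trans hp (C f), ae_add hp h1, h1] with x h2 h3 h4
  rw [h2]
  unfold C
  rw [h3, h4, smul_add, hp2, add_zero]

lemma fourier_hp : (fourier (-1) hp : ℂ) = -1 := by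
  unfold hp
  rw [_root_.fourier_coe_apply]
  have : (2 * π * I * ((-1 : ℤ) : ℂ) * ((1 / 2 : ℝ) : ℂ) / ((1 : ℝ) : ℂ) : ℂ) = -(π * I) := by
    push_cast
    ring
  rw [this, Complex.exp_neg, Complex.exp_pi_mul_I]
  norm_num

lemma trans_E (f : H) : trans hp (E (C f)) = -E (C f) := by
  apply Lp.ext
  have h1 : (E (C f) : Cir → ℂ) =ᵐ[hm] fun x => fourier (-1) x * (C f : Cir → ℂ) x := by
    filter_upwards [coe_mul (uu 0 (-1)) (C f)] with x hx
    have : E (C f) = mul (uu 0 (-1)) (C f) := rfl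
    rw [this, hx]
    have h2 := uu_int 0 (-1) x
    push_cast at h2
    rw [h2]
  have h5 := trans_C f
  have h6 : ∀ᵐ x ∂hm, (C f : Cir → ℂ) (x + hp) = (C f : Cir → ℂ) x := by
    filter_upwards [coe_trans hp (C f)] with x hx
    rw [← hx, h5]
  filter_upwards [coe_trans hp (E (C f)), ae_add hp h1, h1, Lp.coeFn_neg (E (C f)), h6]
    with x h2 h3 h4 h7 h8
  rw [h2, h3, h7, Pi.neg_apply, h4, h8, _root_.fourier_apply, _root_.fourier_apply]
  have h9 := _root_.fourier_add' (T := (1 : ℝ)) (m := -1) (n := 0) (x := x)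
  have h10 : (toCircle ((-1 : ℤ) • (x + hp)) : ℂ) = toCircle ((-1 : ℤ) • x) * toCircle ((-1 : ℤ) • hp) := by
    rw [smul_add, toCircle_add]
    push_cast
    rfl
  rw [h10]
  have h11 : (toCircle ((-1 : ℤ) • hp) : ℂ) = -1 := by
    have := fourier_hp
    rwa [_root_.fourier_apply] at this
  rw [h11]
  ring

/-- the perturbation -/
def K : H →ₗ[ℂ] H := C.toLinearMap + S ∘ₗ S ∘ₗ C.toLinearMap

lemma K_apply (f : H) : K f = C f + S (S (C f)) := rfl

lemma norm_K_sq (f : H) : ‖K f‖ ^ 2 = 2 * ‖f‖ ^ 2 := by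
  have h1 := norm_add_sq_of_parity hp (C f) (E (C (V (S (C f))))) (trans_C f) (trans_E _)
  have h2 : K f = C f + E (C (V (S (C f)))) := rfl
  rw [h2, h1, norm_C, norm_E, norm_C, norm_V, norm_S, norm_C]
  ring

lemma norm_K_le (f : H) : ‖K f‖ ≤ 3 / 2 * ‖f‖ := by
  apply le_of_sq_le_sq _ (by positivity)
  rw [norm_K_sq]
  nlinarith [sq_nonneg ‖f‖]

/-- the synthesis operator -/
def T : (Fin 3 → H) →ₗ[ℂ] (Fin 3 → H) where
  toFun w := ![w 0 + U (w 2) + E (C (w 1)), w 0 + U (w 1) - E (C (w 2)),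
    C (w 0) - U (w 1) - U (w 2)]
  map_add' w z := by
    funext i
    fin_cases i
    · simp [map_add]; abel
    · simp [map_add]; abel
    · simp [map_add]; abel
  map_smul' a w := by
    funext i
    fin_cases i <;> simp [map_smul, smul_add, smul_sub]

lemma T0 (w : Fin 3 → H) : T w 0 = w 0 + U (w 2) + E (C (w 1)) := rfl
lemma T1 (w : Fin 3 → H) : T w 1 = w 0 + U (w 1) - E (C (w 2)) := rfl
lemma T2 (w : Fin 3 → H) : T w 2 = C (w 0) - U (w 1) - U (w 2) := rfl

/-- the right-hand side of the scalar equation -/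
def G (F : Fin 3 → H) : H := F 0 + F 1 + F 2 + S (S (F 2)) - S (F 1 - F 0)

lemma ec (f g : H) : E (C (f + g)) = S (U f + U g) := by
  rw [S_apply, ← map_add U, VU]

lemma ecs (f g : H) : E (C (f - g)) = S (U f - U g) := by
  rw [S_apply, ← map_sub U, VU]

lemma scalar (w : Fin 3 → H) : (2 : ℂ) • w 0 + K (w 0) = G (T w) := by
  have h1 : C (w 0) = T w 2 + (U (w 1) + U (w 2)) := by rw [T2]; abel
  have h2 : T w 1 - T w 0 = (U (w 1) - U (w 2)) - S (U (w 1) + U (w 2)) := by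
    rw [T1, T0, ← ec, map_add C, map_add E]; abel
  have h3 : T w 0 + T w 1 = (2 : ℂ) • w 0 + (U (w 1) + U (w 2)) + S (U (w 1) - U (w 2)) := by
    rw [T1, T0, ← ecs, map_sub C, map_sub E, two_smul]; abel
  have h4 : T w 0 + T w 1 + T w 2 = (2 : ℂ) • w 0 + C (w 0) + S (U (w 1) - U (w 2)) := by
    rw [h3, h1]; abel
  unfold G
  rw [h4, h2, K_apply, map_sub S (U (w 1) - U (w 2))]
  have h5 : S (S (C (w 0))) = S (S (T w 2)) + S (S (U (w 1) + U (w 2))) := by
    rw [h1, map_add S, map_add S]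
  rw [h5]
  abel

lemma norm_G_le (F : Fin 3 → H) : ‖G F‖ ≤ 2 * (‖F 0‖ + ‖F 1‖ + ‖F 2‖) := by
  unfold G
  have h1 : ‖S (S (F 2))‖ = ‖F 2‖ := by rw [norm_S, norm_S]
  have h2 : ‖S (F 1 - F 0)‖ ≤ ‖F 1‖ + ‖F 0‖ := by
    rw [norm_S]
    exact norm_sub_le _ _
  calc ‖F 0 + F 1 + F 2 + S (S (F 2)) - S (F 1 - F 0)‖ ≤
        ‖F 0 + F 1 + F 2 + S (S (F 2))‖ + ‖S (F 1 - F 0)‖ := norm_sub_le _ _
    _ ≤ (‖F 0 + F 1 + F 2‖ + ‖S (S (F 2))‖) + ‖S (F 1 - F 0)‖ := by
        gcongr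
        exact norm_add_le _ _
    _ ≤ ((‖F 0‖ + ‖F 1‖ + ‖F 2‖) + ‖F 2‖) + (‖F 1‖ + ‖F 0‖) := by
        gcongr
        · exact norm_add₃_le
        · exact h1.le
    _ = _ := by ring

lemma lower (w : Fin 3 → H) : (1 / 324) * ∑ j, ‖w j‖ ^ 2 ≤ ∑ i, ‖T w i‖ ^ 2 := by
  set Φ := ‖T w 0‖ + ‖T w 1‖ + ‖T w 2‖ with hΦ
  have hw0 : ‖w 0‖ ≤ 4 * Φ := by
    have h1 : ‖(2 : ℂ) • w 0‖ ≤ ‖G (T w)‖ + ‖K (w 0)‖ := by
      have : (2 : ℂ) • w 0 = G (T w) - K (w 0) := by rw [← scalar]; abel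
      rw [this]
      exact norm_sub_le _ _
    rw [norm_smul] at h1
    have h2 := norm_G_le (T w)
    have h3 := norm_K_le (w 0)
    have h4 : ‖(2 : ℂ)‖ = 2 := by norm_num
    rw [h4] at h1
    linarith
  have hΦ0 : 0 ≤ Φ := by positivity
  have ht0 : ‖T w 0‖ ≤ Φ := by rw [hΦ]; linarith [norm_nonneg (T w 1), norm_nonneg (T w 2)]
  have ht2 : ‖T w 2‖ ≤ Φ := by rw [hΦ]; linarith [norm_nonneg (T w 1), norm_nonneg (T w 0)]
  have hs : ‖U (w 1) + U (w 2)‖ ≤ 5 * Φ := by
    have : U (w 1) + U (w 2) = C (w 0) - T w 2 := by rw [T2]; abel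
    rw [this]
    calc ‖C (w 0) - T w 2‖ ≤ ‖C (w 0)‖ + ‖T w 2‖ := norm_sub_le _ _
      _ ≤ 4 * Φ + Φ := by rw [norm_C]; gcongr
      _ = 5 * Φ := by ring
  have hd : ‖U (w 1) - U (w 2)‖ ≤ 6 * Φ := by
    have : U (w 1) - U (w 2) = (T w 1 - T w 0) + S (U (w 1) + U (w 2)) := by
      rw [T1, T0, ← ec, map_add C, map_add E]; abel
    rw [this]
    calc ‖(T w 1 - T w 0) + S (U (w 1) + U (w 2))‖ ≤
          ‖T w 1 - T w 0‖ + ‖S (U (w 1) + U (w 2))‖ := norm_add_le _ _
      _ ≤ (‖T w 1‖ + ‖T w 0‖) + 5 * Φ := by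
          rw [norm_S]
          gcongr
          exact norm_sub_le _ _
      _ ≤ Φ + 5 * Φ := by
          gcongr
          rw [hΦ]
          linarith [norm_nonneg (T w 2)]
      _ = 6 * Φ := by ring
  have hw1 : ‖w 1‖ ≤ 6 * Φ := by
    rw [← norm_U (w 1)]
    have : (2 : ℂ) • U (w 1) = (U (w 1) + U (w 2)) + (U (w 1) - U (w 2)) := by
      rw [two_smul]; abel
    have h1 : ‖(2 : ℂ) • U (w 1)‖ ≤ 5 * Φ + 6 * Φ := by
      rw [this]
      exact (norm_add_le _ _).trans (add_le_add hs hd)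
    rw [norm_smul] at h1
    have h4 : ‖(2 : ℂ)‖ = 2 := by norm_num
    rw [h4] at h1
    linarith
  have hw2 : ‖w 2‖ ≤ 6 * Φ := by
    rw [← norm_U (w 2)]
    have : (2 : ℂ) • U (w 2) = (U (w 1) + U (w 2)) - (U (w 1) - U (w 2)) := by
      rw [two_smul]; abel
    have h1 : ‖(2 : ℂ) • U (w 2)‖ ≤ 5 * Φ + 6 * Φ := by
      rw [this]
      exact (norm_sub_le _ _).trans (add_le_add hs hd)
    rw [norm_smul] at h1
    have h4 : ‖(2 : ℂ)‖ = 2 := by norm_num
    rw [h4] at h1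
    linarith
  rw [Fin.sum_univ_three, Fin.sum_univ_three]
  have b0 : ‖w 0‖ ^ 2 ≤ (6 * Φ) ^ 2 := pow_le_pow_left₀ (norm_nonneg _) (by linarith) 2
  have b1 : ‖w 1‖ ^ 2 ≤ (6 * Φ) ^ 2 := pow_le_pow_left₀ (norm_nonneg _) hw1 2
  have b2 : ‖w 2‖ ^ 2 ≤ (6 * Φ) ^ 2 := pow_le_pow_left₀ (norm_nonneg _) hw2 2
  have b3 : Φ ^ 2 ≤ 3 * (‖T w 0‖ ^ 2 + ‖T w 1‖ ^ 2 + ‖T w 2‖ ^ 2) := by
    rw [hΦ]
    nlinarith [sq_nonneg (‖T w 0‖ - ‖T w 1‖), sq_nonneg (‖T w 0‖ - ‖T w 2‖),
      sq_nonneg (‖T w 1‖ - ‖T w 2‖)]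
  nlinarith

lemma upper (w : Fin 3 → H) : ∑ i, ‖T w i‖ ^ 2 ≤ 9 * ∑ j, ‖w j‖ ^ 2 := by
  set Φ := ‖w 0‖ + ‖w 1‖ + ‖w 2‖ with hΦ
  have h0 : ‖T w 0‖ ≤ Φ := by
    rw [T0]
    refine norm_add₃_le.trans ?_
    rw [norm_U, norm_E, norm_C, hΦ]
    linarith
  have h1 : ‖T w 1‖ ≤ Φ := by
    rw [T1, sub_eq_add_neg]
    refine norm_add₃_le.trans ?_
    rw [norm_neg, norm_U, norm_E, norm_C, hΦ]
  have h2 : ‖T w 2‖ ≤ Φ := by
    rw [T2, sub_eq_add_neg, sub_eq_add_neg]
    refine norm_add₃_le.trans ?_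
    rw [norm_neg, norm_neg, norm_U, norm_U, norm_C, hΦ]
  rw [Fin.sum_univ_three, Fin.sum_univ_three]
  have b0 := pow_le_pow_left₀ (norm_nonneg _) h0 2
  have b1 := pow_le_pow_left₀ (norm_nonneg _) h1 2
  have b2 := pow_le_pow_left₀ (norm_nonneg _) h2 2
  have b3 : Φ ^ 2 ≤ 3 * (‖w 0‖ ^ 2 + ‖w 1‖ ^ 2 + ‖w 2‖ ^ 2) := by
    rw [hΦ]
    nlinarith [sq_nonneg (‖w 0‖ - ‖w 1‖), sq_nonneg (‖w 0‖ - ‖w 2‖),
      sq_nonneg (‖w 1‖ - ‖w 2‖)]
  nlinarith

lemma surj : Function.Surjective T := by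
  intro F
  obtain ⟨w0, hw0⟩ := exists_solution ((1 / 2 : ℂ) • K) (3 / 4) (by norm_num) (by norm_num)
    (by
      intro f
      rw [LinearMap.smul_apply, norm_smul]
      have := norm_K_le f
      have h4 : ‖(1 / 2 : ℂ)‖ = 1 / 2 := by norm_num
      rw [h4]
      linarith) ((1 / 2 : ℂ) • G F)
  have h0 : (2 : ℂ) • w0 + K w0 = G F := by
    have := congrArg (fun z => (2 : ℂ) • z) hw0
    simp only [smul_add, LinearMap.smul_apply, smul_smul] at this
    norm_num at this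
    exact this
  set s : H := C w0 - F 2 with hs
  set d : H := (F 1 - F 0) + S s with hd
  set w1 : H := V ((1 / 2 : ℂ) • (s + d)) with hw1
  set w2 : H := V ((1 / 2 : ℂ) • (s - d)) with hw2
  have hsum : U w1 + U w2 = s := by
    rw [hw1, hw2, UV, UV, ← smul_add]
    have : s + d + (s - d) = (2 : ℂ) • s := by rw [two_smul]; abel
    rw [this, smul_smul]
    norm_num
  have hdif : U w1 - U w2 = d := by
    rw [hw1, hw2, UV, UV, ← smul_sub]
    have : s + d - (s - d) = (2 : ℂ) • d := by rw [two_smul]; abel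
    rw [this, smul_smul]
    norm_num
  refine ⟨![w0, w1, w2], ?_⟩
  set w : Fin 3 → H := ![w0, w1, w2] with hw
  have e0 : w 0 = w0 := rfl
  have e1 : w 1 = w1 := rfl
  have e2 : w 2 = w2 := rfl
  have h2 : T w 2 = F 2 := by
    rw [T2, e0, e1, e2]
    have : C w0 - U w1 - U w2 = C w0 - (U w1 + U w2) := by abel
    rw [this, hsum, hs]
    abel
  have h10 : T w 1 - T w 0 = F 1 - F 0 := by
    have : T w 1 - T w 0 = (U (w 1) - U (w 2)) - S (U (w 1) + U (w 2)) := by
      rw [T1, T0, ← ec, map_add C, map_add E]; abel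
    rw [this, e1, e2, hdif, hsum, hd]
    abel
  have h01 : T w 0 + T w 1 = F 0 + F 1 := by
    have h3 : T w 0 + T w 1 = (2 : ℂ) • w 0 + (U (w 1) + U (w 2)) + S (U (w 1) - U (w 2)) := by
      rw [T1, T0, ← ecs, map_sub C, map_sub E, two_smul]; abel
    rw [h3, e0, e1, e2, hdif, hsum]
    have h4 : (2 : ℂ) • w0 = G F - K w0 := by rw [← h0]; abel
    rw [h4, K_apply, hd, hs, map_add S (F 1 - F 0)]
    unfold G
    rw [map_sub S (C w0), map_sub S (S (C w0))]
    abel
  have hd2 : ∀ x y a b : H, x + y = a + b → y - x = b - a → x = a ∧ y = b := by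
    intro x y a b h1 h2
    have h3 : (2 : ℂ) • x = (2 : ℂ) • a := by
      rw [two_smul, two_smul]
      calc x + x = (x + y) - (y - x) := by abel
        _ = (a + b) - (b - a) := by rw [h1, h2]
        _ = a + a := by abel
    have h4 : x = a := by
      have := congrArg (fun z => (1 / 2 : ℂ) • z) h3
      simp only [smul_smul] at this
      norm_num at this
      exact this
    refine ⟨h4, ?_⟩
    rw [h4] at h1
    exact add_left_cancel h1
  obtain ⟨g0, g1⟩ := hd2 _ _ _ _ h01 h10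
  funext i
  fin_cases i
  · exact g0
  · exact g1
  · exact h2

/-! ### The frequencies -/

lemma ex_int (a b : ℝ) (k : ℤ) (h : a = b + k) :
    cexp ((2 * π * a : ℝ) * I) = cexp ((2 * π * b : ℝ) * I) := by
  have : ((2 * π * a : ℝ) : ℂ) * I = ((2 * π * b : ℝ) : ℂ) * I + k * (2 * π * I) := by
    rw [h]
    push_cast
    ring
  rw [this, Complex.exp_add, Complex.exp_int_mul_two_pi_mul_I, mul_one]

lemma ex_half (a b : ℝ) (k : ℤ) (h : a = b + k + 1 / 2) :
    cexp ((2 * π * a : ℝ) * I) = -cexp ((2 * π * b : ℝ) * I) := by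
  have : ((2 * π * a : ℝ) : ℂ) * I = ((2 * π * b : ℝ) : ℂ) * I + k * (2 * π * I) + π * I := by
    rw [h]
    push_cast
    ring
  rw [this, Complex.exp_add, Complex.exp_add, Complex.exp_int_mul_two_pi_mul_I, mul_one,
    Complex.exp_pi_mul_I]
  ring

lemma single0 (f : H) : T (Pi.single 0 f) = ![f, f, C f] := by
  funext i
  fin_cases i <;> simp [T]

lemma single1 (f : H) : T (Pi.single 1 f) = ![E (C f), U f, -U f] := by
  funext i
  fin_cases i <;> simp [T]

lemma single2 (f : H) : T (Pi.single 2 f) = ![U f, -E (C f), -U f] := by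
  funext i
  fin_cases i <;> simp [T]

lemma coe_e (n : ℤ) : ((fourierLp 2 n : H) : Cir → ℂ) =ᵐ[hm]
    fun x => cexp ((2 * π * (n * rep 0 x) : ℝ) * I) := by
  filter_upwards [coe_fourierLp n] with x hx
  rw [hx, fourier_eq 0]

lemma coe_U (n : ℤ) : (U (fourierLp 2 n : H) : Cir → ℂ) =ᵐ[hm]
    fun x => cexp ((2 * π * ((n + 1 / 2) * rep 0 x) : ℝ) * I) := by
  unfold U
  filter_upwards [coe_mul_fourierLp (uu 0 (1 / 2)) n] with x hx
  rw [hx, fourier_eq 0]
  unfold uu
  simp only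
  rw [← Complex.exp_add]
  congr 1
  push_cast
  ring

lemma coe_C (n : ℤ) : (C (fourierLp 2 n : H) : Cir → ℂ) =ᵐ[hm]
    fun x => cexp ((2 * π * ((-2 * n) * rep 0 x) : ℝ) * I) := by
  unfold C
  filter_upwards [coe_comp_fourierLp (-2) (by norm_num) n] with x hx
  rw [hx, fourier_eq 0]
  congr 1
  push_cast
  ring

lemma coe_EC (n : ℤ) : (E (C (fourierLp 2 n : H)) : Cir → ℂ) =ᵐ[hm]
    fun x => cexp ((2 * π * ((-2 * n - 1) * rep 0 x) : ℝ) * I) := by
  unfold C E
  filter_upwards [coe_mul_comp_fourierLp (uu 0 (-1)) (-2) (by norm_num) n] with x hx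
  rw [hx, fourier_eq 0]
  unfold uu
  simp only
  rw [← Complex.exp_add]
  congr 1
  push_cast
  ring

/-- the prescribed inner products with the first two edges -/
def xi (p : Fin 3 × ℤ) : ℝ × ℝ :=
  if p.1 = 0 then (p.2, p.2) else if p.1 = 1 then (-2 * p.2 - 1, p.2 + 1 / 2)
    else (p.2 + 1 / 2, -2 * p.2 - 1)

lemma xi_injective : Function.Injective xi := by
  have half : ∀ a b : ℤ, (a : ℝ) ≠ b + 1 / 2 := by
    intro a b h
    have h1 : (2 * a : ℝ) = 2 * b + 1 := by linarith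
    have h2 : 2 * a = 2 * b + 1 := by exact_mod_cast h1
    omega
  have half' : ∀ a b : ℤ, (-2 * a - 1 : ℝ) ≠ b + 1 / 2 := by
    intro a b h
    apply half (-2 * a - 1) b
    push_cast
    exact h
  rintro ⟨i, n⟩ ⟨j, m⟩ h
  fin_cases i <;> fin_cases j <;> simp [xi] at h
  · have h1 : n = m := by exact_mod_cast h
    rw [h1]
  · exact absurd h.2 (by simpa using half n m)
  · exact absurd h.1 (by simpa using half n m)
  · exact absurd h.2.symm (by simpa using half m n)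
  · rw [h]
  · exact absurd h.1 (by simpa using half' n m)
  · exact absurd h.1.symm (by simpa using half m n)
  · exact absurd h.1.symm (by simpa using half' m n)
  · rw [h]

/-- **Theorem.** For every nondegenerate triangle with vertices `P 0, P 1, P 2` in the plane the
boundary length measure admits an exponential Riesz basis. -/
theorem result (P : Fin 3 → E2) (hP : AffineIndependent ℝ P) :
    ∃ Λ : Set E2, Λ.Countable ∧ IsRieszBasis expo (polyMeasure P) Λ := by
  have hlin : LinearIndependent ℝ ![P 1 - P 0, P 2 - P 1] := by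
    have h1 := (affineIndependent_iff_linearIndependent_vsub ℝ P 0).1 hP
    rw [LinearIndependent.pair_iff]
    intro a b hab
    have h2 := Fintype.linearIndependent_iff.1 h1
      (fun x => if x.1 = 1 then a - b else b) ?_
    · have h3 := h2 ⟨1, by decide⟩
      have h4 := h2 ⟨2, by decide⟩
      simp at h3 h4
      constructor
      · linarith
      · exact h4
    · have hu : (Finset.univ : Finset {x : Fin 3 // x ≠ 0}) = {⟨1, by decide⟩, ⟨2, by decide⟩} := by
        decide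
      rw [hu, Finset.sum_pair (by decide)]
      simp only [vsub_eq_sub]
      have e : (a - b) • (P 1 - P 0) + b • (P 2 - P 0) = a • (P 1 - P 0) + b • (P 2 - P 1) := by
        module
      rw [← hab, ← e]
      simp
  choose lam hlam1 hlam2 using fun p : Fin 3 × ℤ =>
    exists_inner _ _ hlin (xi p).1 (xi p).2
  refine ⟨range lam, countable_range _, ?_⟩
  have hne : ∀ i : Fin 3, P (i + 1) - P i ≠ 0 := by
    intro i h
    have h1 := hP.injective (sub_eq_zero.1 h)
    fin_cases i <;> simp at h1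
  have hlam3 : ∀ p, inner ℝ (lam p) (P 0 - P 2) = -(xi p).1 - (xi p).2 := by
    intro p
    have : P 0 - P 2 = -(P 1 - P 0) - (P 2 - P 1) := by abel
    rw [this, inner_sub_right, inner_neg_right, hlam1, hlam2]
  apply riesz_of_data expo (fun i : Fin 3 => edge (P i) (P (i + 1))) lam
    (fun p => cexp ((2 * π * inner ℝ (lam p) (P 0) : ℝ) * I)) T (polyMeasure P) measurable_expo
    (fun i => measurable_edge _ _) (fun i => ‖P (i + 1) - P i‖₊)
    (fun i => by simpa using hne i)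
    (by
      unfold polyMeasure
      simp_rw [segMeasure_eq])
    (by
      intro p q hpq
      apply xi_injective
      have h1 := hlam1 p
      have h2 := hlam2 p
      rw [hpq] at h1 h2
      rw [hlam1 q] at h1
      rw [hlam2 q] at h2
      exact Prod.ext h1.symm h2.symm)
    (fun p => Complex.norm_exp_ofReal_mul_I _) (1 / 324) 9 (by norm_num) lower upper surj
  intro j n i
  -- the phases at the vertices
  have hP1 : inner ℝ (lam (j, n)) (P 1) = inner ℝ (lam (j, n)) (P 0) + (xi (j, n)).1 := by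
    rw [← hlam1, inner_sub_right]; ring
  have hP2 : inner ℝ (lam (j, n)) (P 2) =
      inner ℝ (lam (j, n)) (P 0) + (xi (j, n)).1 + (xi (j, n)).2 := by
    rw [← hlam2 (j, n), inner_sub_right, hP1]; ring
  have key : ∀ (q : ℝ × ℝ), q = xi (j, n) → ∀ i : Fin 3, ∀ x : Cir,
      expo (lam (j, n)) (edge (P i) (P (i + 1)) x) =
      cexp ((2 * π * inner ℝ (lam (j, n)) (P 0) : ℝ) * I) *
        ![cexp ((2 * π * (q.1 * rep 0 x) : ℝ) * I), cexp ((2 * π * (q.1 + q.2 * rep 0 x) : ℝ) * I),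
          cexp ((2 * π * ((q.1 + q.2) - (q.1 + q.2) * rep 0 x) : ℝ) * I)] i := by
    intro q hq i x
    rw [expo_edge]
    fin_cases i
    · simp only [Fin.zero_eta, zero_add, Matrix.cons_val_zero]
      rw [hlam1, hq]
    · simp only [Fin.mk_one, Matrix.cons_val_one, Matrix.cons_val_zero]
      have : (1 : Fin 3) + 1 = 2 := rfl
      rw [this, hlam2, hP1, hq, ← Complex.exp_add, ← Complex.exp_add]
      congr 1
      push_cast
      ring
    · simp only [Fin.reduceFinMk, Matrix.cons_val]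
      have : (2 : Fin 3) + 1 = 0 := rfl
      rw [this, hlam3, hP2, hq, ← Complex.exp_add, ← Complex.exp_add]
      congr 1
      push_cast
      ring
  have hj : ∀ x : Cir, ∀ z : ℂ, z = ![cexp ((2 * π * ((xi (j, n)).1 * rep 0 x) : ℝ) * I),
      cexp ((2 * π * ((xi (j, n)).1 + (xi (j, n)).2 * rep 0 x) : ℝ) * I),
      cexp ((2 * π * (((xi (j, n)).1 + (xi (j, n)).2) -
        ((xi (j, n)).1 + (xi (j, n)).2) * rep 0 x) : ℝ) * I)] i →
      expo (lam (j, n)) (edge (P i) (P (i + 1)) x) =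
        cexp ((2 * π * inner ℝ (lam (j, n)) (P 0) : ℝ) * I) * z := by
    intro x z hz
    rw [hz]
    exact key _ rfl i x
  fin_cases j
  · have hx : xi (0, n) = ((n : ℝ), (n : ℝ)) := rfl
    simp only [Fin.zero_eta] at hj ⊢
    rw [single0]
    rw [hx] at hj
    fin_cases i
    · filter_upwards [coe_e n] with x h1
      apply hj
      simpa using h1
    · filter_upwards [coe_e n] with x h1
      apply hj
      simp only [Fin.mk_one, Matrix.cons_val_one, Matrix.cons_val_zero]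
      rw [h1]
      exact (ex_int _ _ n (by ring)).symm
    · filter_upwards [coe_C n] with x h1
      apply hj
      simp only [Fin.reduceFinMk, Matrix.cons_val]
      rw [h1]
      exact (ex_int _ _ (2 * n) (by push_cast; ring)).symm
  · have hx : xi (1, n) = (-2 * (n : ℝ) - 1, (n : ℝ) + 1 / 2) := rfl
    simp only [Fin.mk_one] at hj ⊢
    rw [single1]
    rw [hx] at hj
    fin_cases i
    · filter_upwards [coe_EC n] with x h1
      apply hj
      simpa using h1
    · filter_upwards [coe_U n] with x h1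
      apply hj
      simp only [Fin.mk_one, Matrix.cons_val_one, Matrix.cons_val_zero]
      rw [h1]
      exact (ex_int _ _ (-2 * n - 1) (by push_cast; ring)).symm
    · filter_upwards [coe_U n, Lp.coeFn_neg (U (fourierLp 2 n : H))] with x h1 h2
      apply hj
      simp only [Fin.reduceFinMk, Matrix.cons_val]
      rw [h2, Pi.neg_apply, h1]
      exact (ex_half _ _ (-n - 1) (by push_cast; ring)).symm
  · have hx : xi (2, n) = ((n : ℝ) + 1 / 2, -2 * (n : ℝ) - 1) := rfl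
    simp only [Fin.reduceFinMk] at hj ⊢
    rw [single2]
    rw [hx] at hj
    fin_cases i
    · filter_upwards [coe_U n] with x h1
      apply hj
      simpa using h1
    · filter_upwards [coe_EC n, Lp.coeFn_neg (E (C (fourierLp 2 n : H)))] with x h1 h2
      apply hj
      simp only [Fin.mk_one, Matrix.cons_val_one, Matrix.cons_val_zero]
      rw [h2, Pi.neg_apply, h1]
      exact (ex_half _ _ n (by push_cast; ring)).symm
    · filter_upwards [coe_U n, Lp.coeFn_neg (U (fourierLp 2 n : H))] with x h1 h2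
      apply hj
      simp only [Fin.reduceFinMk, Matrix.cons_val]
      rw [h2, Pi.neg_apply, h1]
      exact (ex_half _ _ (-n - 1) (by push_cast; ring)).symm

end Pool.Agent.Results.MP_9e9244_an.TriangleRieszBasis
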